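import Pool.Agent.H77.Q.Defs
import Pool.Agent.H6.P4.Side
import Pool.Agent.H81.P4.Main

set_option autoImplicit false

/-!
Row (B) of the full Q1 of MP_a46c6f_co: a rooted code with sides has a matrix with `Pairs` and
`P4Split`.
-/

namespace Pool.Agent.H36.Q

open Pool.Agent.H98.Code Pool.Agent.H17.TR Pool.Agent.H77.Q Pool.Agent.H6.P4

section
variable {V : Type} [Fintype V] [DecidableEq V]
variable {B : Submodule (ZMod 2) (V → K)} {H : V → V → ZMod 2} {e : V}

theorem kk (a : K) : a + a = 0 := by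
  revert a; decide

theorem z_ne : (z : K) ≠ 0 := by decide

/-- an irreducible word inside `k` with the same letter at `y` -/
theorem irr_at {k : V → K} (hk : k ∈ B) {y : V} (hy : k y ≠ 0) :
    ∃ k' ∈ B, (∀ v, k' v = 0 ∨ k' v = k v) ∧ k' y = k y ∧ Irr B k' := by
  classical
  obtain ⟨k', hk', hmin⟩ := Finset.exists_min_image
    (Finset.univ.filter (fun k' : V → K => k' ∈ B ∧ (∀ v, k' v = 0 ∨ k' v = k v) ∧ k' y ≠ 0))
    (fun k' => (Finset.univ.filter (fun v => k' v ≠ 0)).card)
    ⟨k, by rw [Finset.mem_filter]; exact ⟨Finset.mem_univ _, hk, fun v => Or.inr rfl, hy⟩⟩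
  rw [Finset.mem_filter] at hk'
  obtain ⟨-, hkB, hle, hne⟩ := hk'
  have key : ∀ d ∈ B, (∀ v, d v = 0 ∨ d v = k' v) → d y ≠ 0 → d = k' := by
    intro d hd hdle hdy
    have h1 := hmin d (by
      rw [Finset.mem_filter]
      refine ⟨Finset.mem_univ _, hd, fun v => ?_, hdy⟩
      rcases hdle v with h | h
      · exact Or.inl h
      · rw [h]; exact hle v)
    have h2 : Finset.univ.filter (fun v => d v ≠ 0) ⊆ Finset.univ.filter (fun v => k' v ≠ 0) := by
      intro v hv
      rw [Finset.mem_filter] at hv ⊢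
      refine ⟨Finset.mem_univ _, fun h => hv.2 ?_⟩
      rcases hdle v with h' | h'
      · exact h'
      · rw [h', h]
    have h3 := Finset.eq_of_subset_of_card_le h2 h1
    funext v
    rcases hdle v with h | h
    · rw [h]
      by_contra hv
      have : v ∈ Finset.univ.filter (fun v => k' v ≠ 0) := by
        rw [Finset.mem_filter]; exact ⟨Finset.mem_univ _, fun h' => hv h'.symm⟩
      rw [← h3, Finset.mem_filter] at this
      exact this.2 h
    · exact h
  refine ⟨k', hkB, hle, (hle y).resolve_left hne, ?_⟩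
  intro d hd hdle
  by_cases hdy : d y = 0
  · left
    have h1 := key (d + k') (B.add_mem hd hkB) (fun v => by
      rcases hdle v with h | h
      · right; rw [Pi.add_apply, h, zero_add]
      · left; rw [Pi.add_apply, h, kk]) (by rw [Pi.add_apply, hdy, zero_add]; exact hne)
    exact left_eq_add.1 (show k' = k' + d by rw [add_comm]; exact h1.symm) 
  · exact Or.inr (key d hd hdle hdy)

/-- the full word -/
theorem full_fst (v : V) : (wd H (fun _ => 1) v).1 = 1 := rfl

theorem lap_one (v : V) : Lap H (fun _ => 1) v = 0 := by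
  unfold Lap
  refine Finset.sum_eq_zero fun w _ => ?_
  rw [show (1 : ZMod 2) + 1 = 0 from by decide, mul_zero]

/-- letters from the two coordinates -/
theorem wd_ext {f g : V → ZMod 2} {v : V} (h1 : f v = g v) (h2 : Lap H f v = Lap H g v) :
    wd H f v = wd H g v := by
  apply Prod.ext
  · exact h1
  · rw [lap_eq, lap_eq, h1] at h2
    exact add_left_cancel h2

theorem wd_eq {f g : V → ZMod 2} {v : V} (h : wd H f v = wd H g v) :
    f v = g v ∧ Lap H f v = Lap H g v := by
  have h1 : f v = g v := congrArg Prod.fst h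
  have h2 : (wd H f v).2 = (wd H g v).2 := congrArg Prod.snd h
  exact ⟨h1, by rw [lap_wd, lap_wd, h]⟩

theorem wd_z {f : V → ZMod 2} {v : V} (h : f v = 0) (h' : Lap H f v = 1) : wd H f v = z := by
  rw [lap_eq, h, mul_zero, zero_add] at h'
  exact Prod.ext h h'

/-- the summands of a splitting -/
theorem split_wd (hH : IsMat B H) {s : V → ZMod 2} {g : V} (h : Splits B (wd H s) g) :
    ∃ (f₁ f₂ : V → ZMod 2), f₁ + f₂ = s ∧ wd H f₁ g = z ∧ wd H f₂ g = z ∧
      ∀ v, v ≠ g → wd H f₁ v = 0 ∨ wd H f₂ v = 0 := by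
  obtain ⟨c₁, hc₁, c₂, hc₂, hs, hg1, hg2, hd⟩ := h
  have e1 := eq_wd hH hc₁
  have e2 := eq_wd hH hc₂
  refine ⟨fun v => (c₁ v).1, fun v => (c₂ v).1, ?_, ?_, ?_, ?_⟩
  · funext v
    have := congrArg Prod.fst (congrFun hs v)
    exact this
  · rw [← e1]
    exact hg1
  · rw [← e2]
    exact hg2
  · rw [← e1, ← e2]
    exact hd

theorem no_split (hH : IsMat B H) {f : V → ZMod 2} (hall : ∀ v, Lap H f v = 0) {g : V}
    (h : Splits B (wd H f) g) : False := by
  obtain ⟨f₁, f₂, hs, hg1, hg2, hd⟩ := split_wd hH h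
  have h1 := sum_lap hH.sym f₁
  rw [Fintype.sum_eq_single g] at h1
  · rw [(lap_of_z hg1).2] at h1
    exact one_ne_zero h1
  · intro v hv
    rcases hd v hv with h2 | h2
    · exact (lap_of_zero h2).2
    · have h3 := lap_add H f₁ f₂ v
      rw [hs, hall, (lap_of_zero h2).2, add_zero] at h3
      exact h3.symm

/-- the kernel -/
theorem ker' {S : (V → K) → Finset V → Prop} (hH : IsMat B H) (hS : RSides B e S)
    (f : V → ZMod 2) (he : f e = 0) (hall : ∀ v, Lap H f v = 0) : f = 0 := by
  classical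
  by_contra hf
  -- canonical words: the letter is `0` or the letter of the full word
  have hcan : ∀ k ∈ B, ((∀ v, k v = 0 ∨ k v = wd H (fun _ => 1) v) ↔
      ∀ v, Lap H (fun w => (k w).1) v = 0) := by
    intro k hk
    have e1 := eq_wd hH hk
    constructor
    · intro h v
      rcases h v with h | h
      · rw [e1] at h
        exact (lap_of_zero h).2
      · rw [e1] at h
        have := (wd_eq h).2
        rw [lap_one] at this
        exact this
    · intro h v
      rcases zmod_cases' (k v).1 with h1 | h1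
      · left
        rw [e1]
        exact zero_of_lap h1 (h v)
      · right
        rw [e1]
        exact wd_ext h1 (by rw [lap_one]; exact h v)
  -- irreducible canonical words have a side with own places
  have hex : ∀ k ∈ B, k e = 0 → k ≠ 0 → (∀ v, k v = 0 ∨ k v = wd H (fun _ => 1) v) → Irr B k →
      ∃ Y, Y.Nonempty ∧ S k Y := by
    intro k hk hke hk0 hc hirr
    have hzf : ZFree k := by
      intro v hv
      rcases hc v with h | h
      · rw [h] at hv
        exact z_ne hv.symm
      · rw [h] at hv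
        have := congrArg Prod.fst hv
        exact absurd this (by rw [full_fst]; decide)
    rcases hS.ex k hk hzf hke hk0 hirr with ⟨g, hg⟩ | h
    · exfalso
      rw [eq_wd hH hk] at hg
      exact no_split hH ((hcan k hk).1 hc) hg
    · exact h
  have hwB := wd_mem hH f
  obtain ⟨y0, hy0⟩ : ∃ y, wd H f y ≠ 0 := by
    by_contra hcon
    push Not at hcon
    apply hf
    funext v
    exact congrArg Prod.fst (hcon v)
  have hle_can : ∀ k k' : V → K, (∀ v, k v = 0 ∨ k v = wd H (fun _ => 1) v) →
      (∀ v, k' v = 0 ∨ k' v = k v) → ∀ v, k' v = 0 ∨ k' v = wd H (fun _ => 1) v := by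
    intro k k' h h' v
    rcases h' v with h1 | h1
    · exact Or.inl h1
    · rw [h1]; exact h v
  have hfc : ∀ v, wd H f v = 0 ∨ wd H f v = wd H (fun _ => 1) v :=
    (hcan _ hwB).2 (fun v => hall v)
  obtain ⟨k0, hk0, hk0le, hk0y, hk0i⟩ := irr_at hwB hy0
  have hfe : wd H f e = 0 := zero_of_lap he (hall e)
  have hk0e : k0 e = 0 := by
    rcases hk0le e with h | h
    · exact h
    · rw [h, hfe]
  obtain ⟨Y0, hY0, hSY0⟩ := hex k0 hk0 hk0e (fun h => by rw [h] at hk0y; exact hy0 hk0y.symm)
    (hle_can _ _ hfc hk0le) hk0i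
  -- a minimal own set
  obtain ⟨Y, hY, hmin⟩ := Finset.exists_min_image
    (Finset.univ.filter (fun Y : Finset V => Y.Nonempty ∧ ∃ k ∈ B, k e = 0 ∧ k ≠ 0 ∧
      (∀ v, k v = 0 ∨ k v = wd H (fun _ => 1) v) ∧ Irr B k ∧ S k Y)) (fun Y => Y.card)
    ⟨Y0, by
      rw [Finset.mem_filter]
      exact ⟨Finset.mem_univ _, hY0, k0, hk0, hk0e,
        (fun h => by rw [h] at hk0y; exact hy0 hk0y.symm), hle_can _ _ hfc hk0le, hk0i, hSY0⟩⟩
  rw [Finset.mem_filter] at hY
  obtain ⟨-, ⟨y, hy⟩, u, hu, hue, hu0, huc, hui, hSu⟩ := hY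
  obtain ⟨k', hk', hkY, hkout, hksup⟩ := hS.part u Y hSu (wd H (fun _ => 1)) (wd_mem hH _)
    (fun v hv => Or.inr ((huc v).resolve_left hv).symm)
  have hkc : ∀ v, k' v = 0 ∨ k' v = wd H (fun _ => 1) v := by
    intro v
    by_cases h1 : u v = 0
    · by_cases h2 : v ∈ Y
      · exact Or.inr (hkY v h2)
      · exact Or.inl (hkout v h1 h2)
    · rcases hksup v h1 with h | h
      · exact Or.inl h
      · right
        rw [h]
        exact (huc v).resolve_left h1
  have hke : k' e = 0 := hkout e hue (hS.root u Y hSu)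
  have hky : k' y ≠ 0 := by
    rw [hkY y hy]
    intro h
    have := congrArg Prod.fst h
    exact absurd this (by rw [full_fst]; decide)
  obtain ⟨k2, hk2, hk2le, hk2y, hk2i⟩ := irr_at hk' hky
  have hk20 : k2 ≠ 0 := fun h => by rw [h] at hk2y; exact hky hk2y.symm
  have hk2c := hle_can _ _ hkc hk2le
  have hzf : ZFree k2 := by
    intro v hv
    rcases hk2c v with h | h
    · rw [h] at hv
      exact z_ne hv.symm
    · rw [h] at hv
      have := congrArg Prod.fst hv
      exact absurd this (by rw [full_fst]; decide)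
  rcases hS.mono u Y hSu hui k2 hk2 hzf hk20 hk2i (fun v hv => by
      rcases hk2le v with h | h
      · exact Or.inl h
      · rw [h]; exact hksup v hv) (fun v hv hvY => by
      rcases hk2le v with h | h
      · exact h
      · rw [h]; exact hkout v hv hvY) with ⟨g, hg⟩ | ⟨Y', hY', hne, hSY'⟩
  · rw [eq_wd hH hk2] at hg
    exact no_split hH ((hcan k2 hk2).1 hk2c) hg
  · have hyY' : y ∉ Y' := by
      intro h
      have h1 := hS.zero k2 Y' hSY' y h
      rw [hk2y] at h1
      exact hky h1
    have h1 := hmin Y' (by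
      rw [Finset.mem_filter]
      refine ⟨Finset.mem_univ _, hne, k2, hk2, ?_, hk20, hk2c, hk2i, hSY'⟩
      rcases hk2le e with h | h
      · exact h
      · rw [h, hke])
    have h2 := Finset.eq_of_subset_of_card_le hY' h1
    exact hyY' (h2 ▸ hy)
where
  zmod_cases' (x : ZMod 2) : x = 0 ∨ x = 1 := by
    revert x; decide

end

end Pool.Agent.H36.Q
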