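import Pool.Agent.H36.Q.Side

set_option autoImplicit false

/-!
Row (B) of the full Q1 of MP_a46c6f_co, second part.
-/

namespace Pool.Agent.H36.Q

open Pool.Agent.H98.Code Pool.Agent.H17.TR Pool.Agent.H77.Q Pool.Agent.H6.P4

section
variable {V : Type} [Fintype V] [DecidableEq V]
variable {B : Submodule (ZMod 2) (V → K)} {H : V → V → ZMod 2} {e : V}
variable {M : V → V → ZMod 2}

theorem z01 (x : ZMod 2) : x = 0 ∨ x = 1 := by
  revert x; decide

/-- the inverse of the reduced Laplacian -/
theorem exists_inv' (hs : ∀ u v, H u v = H v u)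
    (hker : ∀ f : V → ZMod 2, f e = 0 → (∀ v, Lap H f v = 0) → f = 0) :
    ∃ M : V → V → ZMod 2, (∀ x, M x e = 0) ∧
      ∀ x v, Lap H (M x) v = (if v = x then 1 else 0) + (if v = e then 1 else 0) := by
  set R : (V → ZMod 2) →+ (V → ZMod 2) :=
    { toFun := fun f v => if v = e then f e else Lap H f v
      map_zero' := by
        funext v
        by_cases hv : v = e
        · simp [hv]
        · simp [hv, Lap]
      map_add' := by
        intro f g
        funext v
        by_cases hv : v = e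
        · simp [hv]
        · simp [hv, lap_add] } with hR
  have hval : ∀ f v, R f v = if v = e then f e else Lap H f v := fun f v => rfl
  have hinj : Function.Injective R := by
    rw [injective_iff_map_eq_zero]
    intro f hf
    have hne : ∀ v, v ≠ e → Lap H f v = 0 := by
      intro v hv
      have h1 := congrFun hf v
      rw [hval, if_neg hv] at h1
      exact h1
    apply hker f
    · have h1 := congrFun hf e
      rw [hval, if_pos rfl] at h1
      exact h1
    · intro v
      by_cases hv : v = e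
      · have h1 := sum_lap hs f
        rw [Fintype.sum_eq_single e hne] at h1
        rw [hv, h1]
      · exact hne v hv
  have hsur : Function.Surjective R := Finite.injective_iff_surjective.1 hinj
  choose M hM using fun x : V => hsur (fun v => if v = e then 0 else if v = x then 1 else 0)
  have h0 : ∀ x, M x e = 0 := by
    intro x
    have h1 := congrFun (hM x) e
    rw [hval, if_pos rfl, if_pos rfl] at h1
    exact h1
  have h1 : ∀ x v, v ≠ e → Lap H (M x) v = if v = x then 1 else 0 := by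
    intro x v hv
    have h2 := congrFun (hM x) v
    rw [hval, if_neg hv, if_neg hv] at h2
    exact h2
  refine ⟨M, h0, fun x v => ?_⟩
  by_cases hv : v = e
  · subst hv
    have h2 := sum_lap hs (M x)
    rw [Fintype.sum_eq_add_sum_subtype_ne _ v] at h2
    have h3 : ∑ i : {w // w ≠ v}, Lap H (M x) i.1 = ∑ i : {w // w ≠ v}, if i.1 = x then 1 else 0 :=
      Finset.sum_congr rfl fun i _ => h1 x i.1 i.2
    have h4 : ∑ w, (if w = x then (1 : ZMod 2) else 0) = 1 := by
      rw [Finset.sum_ite_eq' Finset.univ x, if_pos (Finset.mem_univ x)]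
    rw [Fintype.sum_eq_add_sum_subtype_ne _ v, ← h3] at h4
    rw [if_pos rfl]
    revert h2 h4
    generalize Lap H (M x) v = A
    generalize (∑ i : {w // w ≠ v}, Lap H (M x) i.1) = B
    generalize (if v = x then (1 : ZMod 2) else 0) = C
    revert A B C
    decide
  · rw [h1 x v hv, if_neg hv, add_zero]

/-- the data of the matrix -/
structure Dat (B : Submodule (ZMod 2) (V → K)) (H : V → V → ZMod 2) (e : V)
    (M : V → V → ZMod 2) : Prop where
  mat : IsMat B H
  h0 : ∀ x, M x e = 0
  hl : ∀ x v, Lap H (M x) v = (if v = x then 1 else 0) + (if v = e then 1 else 0)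

theorem Dat.sym (h : Dat B H e M) (x y : V) : M x y = M y x := m_sym h.mat.sym h.h0 h.hl x y

theorem Dat.he (h : Dat B H e M) (x : V) : M e x = 0 := by rw [h.sym, h.h0]

/-- a combination of the rows -/
def comb (M : V → V → ZMod 2) {n : ℕ} (p : Fin n → V) (α : Fin n → ZMod 2) : V → ZMod 2 :=
  fun y => ∑ i, α i * M (p i) y

theorem Dat.lap_comb (h : Dat B H e M) {n : ℕ} (p : Fin n → V) (α : Fin n → ZMod 2) (v : V) :
    Lap H (comb M p α) v = (∑ i, α i * (if v = p i then 1 else 0)) +
      (∑ i, α i) * (if v = e then 1 else 0) := by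
  have h1 : Lap H (comb M p α) v = ∑ i, α i * Lap H (M (p i)) v := by
    unfold Lap comb
    have : ∀ w, H v w * ((∑ i, α i * M (p i) v) + ∑ i, α i * M (p i) w) =
        ∑ i, α i * (H v w * (M (p i) v + M (p i) w)) := by
      intro w
      rw [← Finset.sum_add_distrib, Finset.mul_sum]
      exact Finset.sum_congr rfl fun i _ => by ring
    rw [Finset.sum_congr rfl fun w _ => this w, Finset.sum_comm]
    exact Finset.sum_congr rfl fun i _ => by rw [Finset.mul_sum]
  rw [h1, Finset.sum_mul, ← Finset.sum_add_distrib]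
  refine Finset.sum_congr rfl fun i _ => ?_
  rw [h.hl]
  ring

/-- sums over `V` concentrated on `g` and the points `p i` -/
theorem sum_big {n : ℕ} {p : Fin n → V} (hp : Function.Injective p) {g : V} (hg : ∀ j, g ≠ p j)
    (F : V → ZMod 2) (hF : ∀ v, v ≠ g → (∀ j, v ≠ p j) → F v = 0) :
    ∑ v, F v = F g + ∑ i, F (p i) := by
  have h1 : ∑ v ∈ insert g (Finset.univ.image p), F v = ∑ v, F v := by
    apply Finset.sum_subset (Finset.subset_univ _)
    intro v _ hv
    rw [Finset.mem_insert, not_or, Finset.mem_image] at hv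
    apply hF v hv.1
    intro j hj
    exact hv.2 ⟨j, Finset.mem_univ j, hj.symm⟩
  rw [← h1, Finset.sum_insert, Finset.sum_image]
  · intro i _ j _ h
    exact hp h
  · rw [Finset.mem_image]
    rintro ⟨j, _, hj⟩
    exact hg j hj.symm

/-- the form of a word which is `0` at `e` and has `Lap = 1` at `g` -/
theorem Dat.core2 (h : Dat B H e M) {n : ℕ} {p : Fin n → V} (hp : Function.Injective p)
    {f : V → ZMod 2} {g : V} (hfe : f e = 0) (hg : ∀ j, g ≠ p j) (hlg : Lap H f g = 1)
    (hout : ∀ v, v ≠ g → (∀ j, v ≠ p j) → Lap H f v = 0)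
    (hT : ∀ j, f (p j) = Lap H f (p j)) :
    ∃ α : Fin n → ZMod 2, ∑ i, α i = 1 ∧ (∀ y, f y = M g y + ∑ i, α i * M (p i) y) ∧
      ∀ j, M g (p j) = α j + ∑ i, α i * M (p i) (p j) := by
  have hf1 : ∀ y, f y = M g y + ∑ i, Lap H f (p i) * M (p i) y := by
    intro y
    rw [recon h.mat.sym h.h0 h.hl f hfe y, sum_big hp hg (fun v => Lap H f v * M v y), hlg,
      one_mul]
    intro v hv hvp
    rw [hout v hv hvp, zero_mul]
  refine ⟨fun i => Lap H f (p i), ?_, hf1, ?_⟩
  · have h1 := sum_lap h.mat.sym f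
    rw [sum_big hp hg (fun v => Lap H f v) hout, hlg] at h1
    revert h1
    generalize (∑ i, Lap H f (p i)) = A
    revert A
    decide
  · intro j
    have h1 := hf1 (p j)
    rw [hT j] at h1
    beta_reduce
    revert h1
    generalize (∑ i, Lap H f (p i) * M (p i) (p j)) = A
    generalize M g (p j) = C
    generalize Lap H f (p j) = D
    revert A C D
    decide

/-- a closed family of an even number of points -/
structure Cl (M : V → V → ZMod 2) (e : V) {n : ℕ} (p : Fin n → V) : Prop where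
  even : ((n : ℕ) : ZMod 2) = 0
  pos : 0 < n
  inj : Function.Injective p
  ne : ∀ i, p i ≠ e
  cl : ∀ j, ∑ i, M (p i) (p j) = 1

/-- the sum of the rows -/
def sm (M : V → V → ZMod 2) {n : ℕ} (p : Fin n → V) : V → ZMod 2 := fun y => ∑ i, M (p i) y

theorem Cl.smp {n : ℕ} {p : Fin n → V} (hc : Cl M e p) (j : Fin n) : sm M p (p j) = 1 := hc.cl j

theorem Dat.sm_e (h : Dat B H e M) {n : ℕ} (p : Fin n → V) : sm M p e = 0 :=
  Finset.sum_eq_zero fun i _ => h.h0 (p i)

theorem Dat.lap_sm (h : Dat B H e M) {n : ℕ} {p : Fin n → V} (hc : Cl M e p) (v : V) :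
    Lap H (sm M p) v = ∑ i, (if v = p i then 1 else 0) := by
  have h1 : sm M p = comb M p (fun _ => 1) := by
    funext y
    unfold sm comb
    exact Finset.sum_congr rfl fun i _ => (one_mul _).symm
  rw [h1, h.lap_comb]
  have h2 : ∑ _i : Fin n, (1 : ZMod 2) = 0 := by
    rw [Finset.sum_const, Finset.card_univ, Fintype.card_fin, nsmul_eq_mul, hc.even, zero_mul]
  rw [h2, zero_mul, add_zero]
  exact Finset.sum_congr rfl fun i _ => one_mul _

theorem Dat.lap_smp (h : Dat B H e M) {n : ℕ} {p : Fin n → V} (hc : Cl M e p) (j : Fin n) :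
    Lap H (sm M p) (p j) = 1 := by
  rw [h.lap_sm hc, Finset.sum_eq_single j]
  · rw [if_pos rfl]
  · intro i _ hi
    rw [if_neg]
    intro h
    exact hi (hc.inj h).symm
  · intro h
    exact absurd (Finset.mem_univ j) h

theorem Dat.lap_smo (h : Dat B H e M) {n : ℕ} {p : Fin n → V} (hc : Cl M e p) {v : V}
    (hv : ∀ j, v ≠ p j) : Lap H (sm M p) v = 0 := by
  rw [h.lap_sm hc]
  exact Finset.sum_eq_zero fun i _ => by rw [if_neg (hv i)]

/-- the word of the family -/
def wT (H M : V → V → ZMod 2) {n : ℕ} (p : Fin n → V) : V → K := wd H (sm M p)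

theorem Dat.wT_mem (h : Dat B H e M) {n : ℕ} (p : Fin n → V) : wT H M p ∈ B := wd_mem h.mat _

theorem Dat.wT_e (h : Dat B H e M) {n : ℕ} {p : Fin n → V} (hc : Cl M e p) : wT H M p e = 0 :=
  zero_of_lap (h.sm_e p) (h.lap_smo hc fun j h' => hc.ne j h'.symm)

/-- the places with letter `0` -/
theorem Dat.wT_zero (h : Dat B H e M) {n : ℕ} {p : Fin n → V} (hc : Cl M e p) {v : V} :
    wT H M p v = 0 ↔ sm M p v = 0 := by
  constructor
  · intro h1
    exact (lap_of_zero h1).1
  · intro h1
    apply zero_of_lap h1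
    apply h.lap_smo hc
    intro j hj
    rw [hj, hc.smp] at h1
    exact one_ne_zero h1

theorem Dat.wT_zfree (h : Dat B H e M) {n : ℕ} {p : Fin n → V} (hc : Cl M e p) :
    ZFree (wT H M p) := by
  intro v hv
  have h1 := (lap_of_z hv).1
  rw [(h.wT_zero hc).2 h1] at hv
  exact z_ne hv.symm

theorem Dat.wT_ne (h : Dat B H e M) {n : ℕ} {p : Fin n → V} (hc : Cl M e p) :
    wT H M p ≠ 0 := by
  intro h1
  have h2 := (h.wT_zero hc).1 (congrFun h1 (p ⟨0, hc.pos⟩))
  rw [hc.smp] at h2
  exact one_ne_zero h2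

/-- `wd f ≤ wT` on the support -/
theorem Dat.le_iff (h : Dat B H e M) {n : ℕ} {p : Fin n → V} (hc : Cl M e p) {f : V → ZMod 2} :
    (∀ v, wT H M p v ≠ 0 → wd H f v = 0 ∨ wd H f v = wT H M p v) ↔
      ∀ v, sm M p v = 1 → (∀ j, v = p j → f v = Lap H f v) ∧
        ((∀ j, v ≠ p j) → Lap H f v = 0) := by
  constructor
  · intro hh v hv
    have h1 : wT H M p v ≠ 0 := by
      intro h2
      rw [h.wT_zero hc, hv] at h2
      exact one_ne_zero h2
    refine ⟨?_, ?_⟩
    · intro j hj
      rcases hh v h1 with h2 | h2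
      · rw [(lap_of_zero h2).1, (lap_of_zero h2).2]
      · obtain ⟨e1, e2⟩ := wd_eq h2
        rw [e1, e2, hj, hc.smp, h.lap_smp hc]
    · intro hj
      rcases hh v h1 with h2 | h2
      · exact (lap_of_zero h2).2
      · rw [(wd_eq h2).2]
        exact h.lap_smo hc hj
  · intro hh v hv
    have h1 : sm M p v = 1 := by
      rcases z01 (sm M p v) with h2 | h2
      · exact absurd ((h.wT_zero hc).2 h2) hv
      · exact h2
    obtain ⟨h2, h3⟩ := hh v h1
    by_cases hj : ∃ j, v = p j
    · obtain ⟨j, hj⟩ := hj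
      have h4 := h2 j hj
      rcases z01 (f v) with h5 | h5
      · left
        exact zero_of_lap h5 (by rw [← h4, h5])
      · right
        apply wd_ext
        · rw [h5, h1]
        · rw [← h4, h5, hj, h.lap_smp hc]
    · push Not at hj
      have h4 := h3 hj
      rcases z01 (f v) with h5 | h5
      · left
        exact zero_of_lap h5 h4
      · right
        apply wd_ext
        · rw [h5, h1]
        · rw [h4, h.lap_smo hc hj]

/-- a splitting of the word of a closed family -/
theorem Dat.of_split (h : Dat B H e M) {n : ℕ} {p : Fin n → V} (hc : Cl M e p) {g : V}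
    (hg : Splits B (wT H M p) g) :
    ∃ α : Fin n → ZMod 2, ∑ i, α i = 1 ∧
      (∀ j, M g (p j) = α j + ∑ i, α i * M (p i) (p j)) ∧ (M g g = ∑ i, α i * M (p i) g) ∧
      ∀ y, ∑ i, M (p i) y = 0 → M g y = ∑ i, α i * M (p i) y := by
  obtain ⟨f₁, f₂, hs, hg1, hg2, hd⟩ := split_wd h.mat hg
  have hsum : ∀ v, f₁ v + f₂ v = sm M p v := fun v => congrFun hs v
  have hlsum : ∀ v, Lap H f₁ v + Lap H f₂ v = Lap H (sm M p) v := by
    intro v
    rw [← hs, lap_add]
  have hgp : ∀ j, g ≠ p j := by
    intro j hj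
    have h1 := hsum g
    rw [(lap_of_z hg1).1, (lap_of_z hg2).1, hj, hc.smp] at h1
    exact absurd h1 (by decide)
  have hout : ∀ v, v ≠ g → (∀ j, v ≠ p j) → Lap H f₁ v = 0 := by
    intro v hv hvp
    rcases hd v hv with h1 | h1
    · exact (lap_of_zero h1).2
    · have h2 := hlsum v
      rw [(lap_of_zero h1).2, h.lap_smo hc hvp, add_zero] at h2
      exact h2
  have hfe : f₁ e = 0 := by
    by_cases hge : e = g
    · rw [hge]
      exact (lap_of_z hg1).1
    · rcases hd e hge with h1 | h1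
      · exact (lap_of_zero h1).1
      · have h2 := hsum e
        rw [(lap_of_zero h1).1, h.sm_e, add_zero] at h2
        exact h2
  have hT : ∀ j, f₁ (p j) = Lap H f₁ (p j) := by
    intro j
    rcases hd (p j) (hgp j).symm with h5 | h5
    · rw [(lap_of_zero h5).1, (lap_of_zero h5).2]
    · have h3 := hsum (p j)
      have h4 := hlsum (p j)
      rw [(lap_of_zero h5).1, add_zero, hc.smp] at h3
      rw [(lap_of_zero h5).2, add_zero, h.lap_smp hc] at h4
      rw [h3, h4]
  obtain ⟨α, h1, h2, h3⟩ := h.core2 hc.inj hfe hgp (lap_of_z hg1).2 hout hT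
  refine ⟨α, h1, h3, ?_, ?_⟩
  · have h4 := h2 g
    rw [(lap_of_z hg1).1] at h4
    exact (CharTwo.add_eq_zero.1 h4.symm)
  · intro y hy
    have h1 := h2 y
    have h2 : f₁ y = 0 := by
      by_cases hyg : y = g
      · rw [hyg]
        exact (lap_of_z hg1).1
      · rcases hd y hyg with h3 | h3
        · exact (lap_of_zero h3).1
        · have h4 := hsum y
          have h5 : sm M p y = 0 := hy
          rw [(lap_of_zero h3).1, h5, add_zero] at h4
          exact h4
    rw [h2] at h1
    exact (CharTwo.add_eq_zero.1 h1.symm)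

/-- own places of the side: the part of a word `f ≤ wT` with `Lap f = [v = y]` on `Y` -/
theorem Dat.own (h : Dat B H e M) {S : (V → K) → Finset V → Prop} (hS : RSides B e S) {n : ℕ}
    {p : Fin n → V} (hc : Cl M e p) {Y : Finset V} (hSY : S (wT H M p) Y) {y : V} (hy : y ∈ Y)
    {f : V → ZMod 2} (hf : ∀ v, sm M p v = 1 → (∀ j, v = p j → f v = Lap H f v) ∧
        ((∀ j, v ≠ p j) → Lap H f v = 0)) (hfY : ∀ v ∈ Y, Lap H f v = if v = y then 1 else 0) :
    ∃ α : Fin n → ZMod 2, ∑ i, α i = 1 ∧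
      (∀ j, M y (p j) = α j + ∑ i, α i * M (p i) (p j)) ∧
      ∀ v, sm M p v = 0 → v ∉ Y → M y v = ∑ i, α i * M (p i) v := by
  obtain ⟨k', hk', hkY, hkout, hksup⟩ := hS.part _ Y hSY (wd H f) (wd_mem h.mat f)
    ((h.le_iff hc).2 hf)
  have e1 := eq_wd h.mat hk'
  set f' : V → ZMod 2 := fun v => (k' v).1 with hf'
  rw [e1] at hkY hkout hksup
  have hle := (h.le_iff hc).1 hksup
  have hpY : ∀ j, p j ∉ Y := by
    intro j hj
    have h1 := hS.zero _ Y hSY _ hj
    rw [h.wT_zero hc, hc.smp] at h1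
    exact one_ne_zero h1
  have heY := hS.root _ Y hSY
  have h1 : f' e = 0 := (lap_of_zero (hkout e (h.wT_e hc) heY)).1
  have h2 : ∀ j, y ≠ p j := fun j hj => hpY j (hj ▸ hy)
  have h3 : Lap H f' y = 1 := by
    rw [(wd_eq (hkY y hy)).2, hfY y hy, if_pos rfl]
  have h4 : ∀ v, v ≠ y → (∀ j, v ≠ p j) → Lap H f' v = 0 := by
    intro v hv hvp
    by_cases hvY : v ∈ Y
    · rw [(wd_eq (hkY v hvY)).2, hfY v hvY, if_neg hv]
    · rcases z01 (sm M p v) with h5 | h5
      · exact (lap_of_zero (hkout v ((h.wT_zero hc).2 h5) hvY)).2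
      · exact (hle v h5).2 hvp
  obtain ⟨α, a1, a2, a3⟩ := h.core2 hc.inj h1 h2 h3 h4 (fun j => (hle (p j) (hc.smp j)).1 j rfl)
  refine ⟨α, a1, a3, ?_⟩
  intro v hv hvY
  have h5 := a2 v
  rw [(lap_of_zero (hkout v ((h.wT_zero hc).2 hv) hvY)).1] at h5
  exact (CharTwo.add_eq_zero.1 h5.symm)

end

end Pool.Agent.H36.Q
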