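import Pool.Agent.H36.Q.Side2

set_option autoImplicit false

/-!
Row (B) of the full Q1 of MP_a46c6f_co, third part.
-/

namespace Pool.Agent.H36.Q

open Pool.Agent.H98.Code Pool.Agent.H17.TR Pool.Agent.H77.Q Pool.Agent.H6.P4

section
variable {V : Type} [Fintype V] [DecidableEq V]
variable {B : Submodule (ZMod 2) (V → K)} {H : V → V → ZMod 2} {e : V}
variable {M : V → V → ZMod 2}

/-- the form of a word which is `≤` the word of a closed family and `0` at `e` -/
theorem Dat.core0 (h : Dat B H e M) {n : ℕ} {p : Fin n → V} (hp : Function.Injective p)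
    {f : V → ZMod 2} (hfe : f e = 0)
    (hout : ∀ v, (∀ j, v ≠ p j) → Lap H f v = 0)
    (hT : ∀ j, f (p j) = Lap H f (p j)) :
    ∃ α : Fin n → ZMod 2, ∑ i, α i = 0 ∧ (∀ y, f y = ∑ i, α i * M (p i) y) ∧
      ∀ j, α j = ∑ i, α i * M (p i) (p j) := by
  have hbig : ∀ F : V → ZMod 2, (∀ v, (∀ j, v ≠ p j) → F v = 0) → ∑ v, F v = ∑ i, F (p i) := by
    intro F hF
    have h1 : ∑ v ∈ Finset.univ.image p, F v = ∑ v, F v := by
      apply Finset.sum_subset (Finset.subset_univ _)
      intro v _ hv
      rw [Finset.mem_image] at hv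
      apply hF v
      intro j hj
      exact hv ⟨j, Finset.mem_univ j, hj.symm⟩
    rw [← h1, Finset.sum_image]
    intro i _ j _ h
    exact hp h
  have hf1 : ∀ y, f y = ∑ i, Lap H f (p i) * M (p i) y := by
    intro y
    rw [recon h.mat.sym h.h0 h.hl f hfe y, hbig (fun v => Lap H f v * M v y)]
    intro v hvp
    rw [hout v hvp, zero_mul]
  refine ⟨fun i => Lap H f (p i), ?_, hf1, ?_⟩
  · have h1 := sum_lap h.mat.sym f
    rw [hbig (fun v => Lap H f v) hout] at h1
    exact h1
  · intro j
    have h1 := hf1 (p j)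
    rw [hT j] at h1
    exact h1

/-- irreducibility -/
theorem Dat.irr (h : Dat B H e M) {n : ℕ} {p : Fin n → V} (hc : Cl M e p)
    (hα : ∀ α : Fin n → ZMod 2, ∑ i, α i = 0 → (∀ j, α j = ∑ i, α i * M (p i) (p j)) →
      (∀ i, α i = 0) ∨ ∀ i, α i = 1) : Irr B (wT H M p) := by
  intro d hd hle
  have e1 := eq_wd h.mat hd
  set f : V → ZMod 2 := fun v => (d v).1 with hf
  have hle' : ∀ v, wT H M p v ≠ 0 → wd H f v = 0 ∨ wd H f v = wT H M p v := by
    intro v _
    rw [← e1]
    exact hle v
  have h2 := (h.le_iff hc).1 hle'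
  have hz : ∀ v, wT H M p v = 0 → wd H f v = 0 := by
    intro v hv
    rw [← e1]
    rcases hle v with h3 | h3
    · exact h3
    · rw [h3, hv]
  obtain ⟨α, a1, a2, a3⟩ := h.core0 hc.inj (lap_of_zero (hz e (h.wT_e hc))).1 (by
    intro v hv
    rcases z01 (sm M p v) with h3 | h3
    · exact (lap_of_zero (hz v ((h.wT_zero hc).2 h3))).2
    · exact (h2 v h3).2 hv) (fun j => (h2 (p j) (hc.smp j)).1 j rfl)
  rcases hα α a1 a3 with h3 | h3
  · left
    rw [e1]
    have h4 : f = 0 := by
      funext y
      rw [a2 y]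
      exact Finset.sum_eq_zero fun i _ => by rw [h3 i, zero_mul]
    rw [h4]
    funext v
    exact zero_of_lap rfl (by unfold Lap; simp)
  · right
    rw [e1]
    have h4 : f = sm M p := by
      funext y
      rw [a2 y]
      exact Finset.sum_congr rfl fun i _ => by rw [h3 i, one_mul]
    rw [h4]
    rfl

/-- transfer of a splitting to the larger word -/
theorem kpart {S : (V → K) → Finset V → Prop} (hS : RSides B e S) {u : V → K} {Y : Finset V}
    (hSu : S u Y) (hu : u ∈ B) {c : V → K} (hc : c ∈ B)
    (hle : ∀ v, u v ≠ 0 → c v = 0 ∨ c v = u v) {g : V} (hug : u g = 0) (hgY : g ∉ Y)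
    (hcg : c g = z) (hout : ∀ v, u v = 0 → v ∉ Y → v ≠ g → c v = 0) : Splits B u g := by
  obtain ⟨k', hk', hkY, hkout, hksup⟩ := hS.part u Y hSu c hc hle
  refine ⟨c + k', B.add_mem hc hk', c + k' + u, B.add_mem (B.add_mem hc hk') hu, ?_, ?_, ?_, ?_⟩
  · funext v
    rw [Pi.add_apply, Pi.add_apply (c + k') u, ← add_assoc, kk, zero_add]
  · rw [Pi.add_apply, hcg, hkout g hug hgY, add_zero]
  · rw [Pi.add_apply, Pi.add_apply, hcg, hkout g hug hgY, hug, add_zero, add_zero]
  · intro v hv
    by_cases h1 : u v = 0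
    · left
      by_cases h2 : v ∈ Y
      · rw [Pi.add_apply, hkY v h2, kk]
      · rw [Pi.add_apply, hout v h1 h2 hv, hkout v h1 h2, add_zero]
    · rcases hle v h1 with h2 | h2 <;> rcases hksup v h1 with h3 | h3
      · left; rw [Pi.add_apply, h2, h3, add_zero]
      · right; rw [Pi.add_apply, Pi.add_apply, h2, h3, zero_add, kk]
      · right; rw [Pi.add_apply, Pi.add_apply, h2, h3, add_zero, kk]
      · left; rw [Pi.add_apply, h2, h3, kk]

/-- the place of a splitting of a smaller word -/
theorem loc (hB : IsCode B) {S : (V → K) → Finset V → Prop} (hS : RSides B e S) {u : V → K}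
    {Y : Finset V} (hSu : S u Y) (hu : u ∈ B) (hzf : ZFree u) (hns : ∀ g, ¬ Splits B u g)
    {u' : V → K} (h1 : ∀ v, u v ≠ 0 → u' v = 0 ∨ u' v = u v)
    (h2 : ∀ v, u v = 0 → v ∉ Y → u' v = 0) {g : V} (hg : Splits B u' g) : g ∈ Y ∧ u' g = 0 := by
  obtain ⟨c₁, hc₁, c₂, hc₂, hs, hg1, hg2, hd⟩ := hg
  have hle : ∀ v, v ≠ g → c₁ v = 0 ∨ c₁ v = u' v := by
    intro v hv
    rcases hd v hv with h | h
    · exact Or.inl h
    · right
      rw [← hs, Pi.add_apply, h, add_zero]
  have hug : u g = 0 := by
    by_contra hne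
    have h3 := hB.iso c₁ hc₁ u hu
    unfold form at h3
    rw [Finset.sum_eq_single g] at h3
    · rw [hg1] at h3
      have h4 : (u g).1 = 0 := by
        have : kf z (u g) = (u g).1 := by simp [kf, z]
        rw [← this, h3]
      rcases z01 (u g).2 with h5 | h5
      · exact hne (Prod.ext h4 h5)
      · exact hzf g (Prod.ext h4 h5)
    · intro v _ hv
      by_cases h4 : u v = 0
      · rw [h4]; simp [kf]
      · rcases hle v hv with h5 | h5
        · rw [h5]; simp [kf]
        · rcases h1 v h4 with h6 | h6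
          · rw [h5, h6]; simp [kf]
          · rw [h5, h6]
            generalize u v = a
            revert a
            decide
    · intro h
      exact absurd (Finset.mem_univ g) h
  refine ⟨?_, by rw [← hs, Pi.add_apply, hg1, hg2, kk]⟩
  by_contra hgY
  refine hns g (kpart hS hSu hu hc₁ ?_ hug hgY hg1 ?_)
  · intro v hv
    have hvg : v ≠ g := by
      rintro rfl
      exact hv hug
    rcases hle v hvg with h | h
    · exact Or.inl h
    · rw [h]
      exact h1 v hv
  · intro v hv hvY hvg
    rcases hle v hvg with h | h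
    · exact h
    · rw [h]
      exact h2 v hv hvY

theorem ne_add (a b : ZMod 2) (h : a ≠ b) : a = b + 1 := by
  revert a b; decide

/-- closed pairs -/
theorem Dat.pairCl (h : Dat B H e M) {u v : V} (huv : M u u = M v v) (hne : M u v ≠ M u u) :
    Cl M e ![u, v] := by
  have hue : u ≠ e := by
    rintro rfl
    exact hne (by rw [h.he, h.he])
  have hve : v ≠ e := by
    rintro rfl
    apply hne
    rw [h.h0, huv, h.h0]
  have huv' : u ≠ v := by
    rintro rfl
    exact hne rfl
  have hvu : M v u = M u v := h.sym v u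
  have hmuv : M u v = M u u + 1 := ne_add _ _ hne
  refine ⟨by decide, by norm_num, ?_, ?_, ?_⟩
  · intro i j hij
    fin_cases i <;> fin_cases j
    · rfl
    · exact absurd hij huv'
    · exact absurd hij.symm huv'
    · rfl
  · intro i
    fin_cases i
    · exact hue
    · exact hve
  · intro j
    rw [Fin.sum_univ_two]
    fin_cases j
    · change M u u + M v u = 1
      rw [hvu, hmuv]
      generalize M u u = B
      revert B
      decide
    · change M u v + M v v = 1
      rw [← huv, hmuv]
      generalize M u u = B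
      revert B
      decide

theorem sm_pair (u v y : V) : sm M ![u, v] y = M u y + M v y := by
  unfold sm
  rw [Fin.sum_univ_two]
  rfl

theorem Dat.irr_pair (h : Dat B H e M) {u v : V} (huv : M u u = M v v) (hne : M u v ≠ M u u) :
    Irr B (wT H M ![u, v]) := by
  apply h.irr (h.pairCl huv hne)
  intro α h1 _
  rw [Fin.sum_univ_two] at h1
  have h2 : α 0 = α 1 := CharTwo.add_eq_zero.1 h1
  rcases z01 (α 0) with h3 | h3
  · left
    intro i
    fin_cases i
    · exact h3
    · exact h2 ▸ h3
  · right
    intro i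
    fin_cases i
    · exact h3
    · exact h2 ▸ h3

/-- the midpoint from a combination -/
theorem Dat.pair_of (h : Dat B H e M) {u v : V} (huv : M u u = M v v) (hne : M u v ≠ M u u)
    {g : V} (hg : Splits B (wT H M ![u, v]) g) :
    M g g ≠ M u u ∧ M g u = M g g ∧ M g v = M g g ∧ ∀ x, M u x = M v x → M g x = M u x := by
  have hvu : M v u = M u v := h.sym v u
  have hmuv : M u v = M u u + 1 := ne_add _ _ hne
  obtain ⟨α, h1, h2, h3, h4⟩ := h.of_split (h.pairCl huv hne) hg
  have h2u := h2 0
  have h2v := h2 1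
  simp only [Fin.sum_univ_two, Matrix.cons_val_zero, Matrix.cons_val_one] at h1 h2u h2v h3 h4
  rw [hvu, hmuv] at h2u
  rw [← huv, hmuv] at h2v
  have h5 : M g u = M u u + 1 := by
    rw [h2u]
    revert h1
    generalize α 0 = A
    generalize α 1 = B
    generalize M u u = C
    revert A B C
    decide
  have h6 : M g v = M u u + 1 := by
    rw [h2v]
    revert h1
    generalize α 0 = A
    generalize α 1 = B
    generalize M u u = C
    revert A B C
    decide
  have h7 : M g g = M u u + 1 := by
    rw [h3, h.sym u g, h.sym v g, h5, h6]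
    revert h1
    generalize α 0 = A
    generalize α 1 = B
    generalize M u u = C
    revert A B C
    decide
  refine ⟨?_, ?_, ?_, ?_⟩
  · rw [h7]
    generalize M u u = B
    revert B
    decide
  · rw [h5, h7]
  · rw [h6, h7]
  · intro x hx
    rw [h4 x (by rw [hx]; exact CharTwo.add_self_eq_zero _), ← hx, ← add_mul, h1, one_mul]

/-- own places of an unsplit closed pair -/
theorem Dat.pair_own (h : Dat B H e M) {S : (V → K) → Finset V → Prop} (hS : RSides B e S)
    {a b : V} (hab : M a a = M b b) (hne : M a b ≠ M a a) {Y : Finset V}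
    (hSY : S (wT H M ![a, b]) Y) {y : V} (hy : y ∈ Y) :
    M y a = M a a + 1 ∧ M y b = M a a + 1 ∧ ∀ v, M a v = M b v → v ∉ Y → M y v = M a v := by
  have hc := h.pairCl hab hne
  have hba : M b a = M a b := h.sym b a
  have hmab : M a b = M a a + 1 := ne_add _ _ hne
  have hsy : M a y = M b y := by
    have h1 := (h.wT_zero hc).1 (hS.zero _ Y hSY y hy)
    rw [sm_pair] at h1
    exact CharTwo.add_eq_zero.1 h1
  have hYe : ∀ v ∈ Y, v ≠ e := fun v hv hve => hS.root _ Y hSY (hve ▸ hv)
  have hsup : ∀ v, sm M ![a, b] v = 1 → v ≠ y ∧ v ≠ e := by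
    intro v hv
    constructor
    · rintro rfl
      have h1 := (h.wT_zero hc).1 (hS.zero _ Y hSY v hy)
      rw [hv] at h1
      exact one_ne_zero h1
    · rintro rfl
      rw [h.sm_e] at hv
      exact zero_ne_one hv
  have hex : ∃ f : V → ZMod 2, (∀ v, sm M ![a, b] v = 1 → (∀ j, v = ![a, b] j →
      f v = Lap H f v) ∧ ((∀ j, v ≠ ![a, b] j) → Lap H f v = 0)) ∧
      ∀ v ∈ Y, Lap H f v = if v = y then 1 else 0 := by
    have hl0 : ∀ v, sm M ![a, b] v = 1 → Lap H (M y) v = 0 := by
      intro v hv
      rw [h.hl, if_neg (hsup v hv).1, if_neg (hsup v hv).2, add_zero]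
    have hlY : ∀ v ∈ Y, Lap H (M y) v = if v = y then 1 else 0 := by
      intro v hv
      rw [h.hl, if_neg (hYe v hv), add_zero]
    rcases z01 (M a y) with h1 | h1
    · refine ⟨M y, ?_, hlY⟩
      intro v hv
      refine ⟨?_, fun _ => hl0 v hv⟩
      intro j hj
      rw [hl0 v hv, hj]
      fin_cases j
      · change M y a = 0
        rw [h.sym, h1]
      · change M y b = 0
        rw [h.sym, ← hsy, h1]
    · refine ⟨M y + (fun _ => 1), ?_, ?_⟩
      · intro v hv
        rw [lap_add, lap_one, add_zero, Pi.add_apply]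
        refine ⟨?_, fun _ => hl0 v hv⟩
        intro j hj
        rw [hl0 v hv, hj]
        fin_cases j
        · change M y a + 1 = 0
          rw [h.sym, h1]
          decide
        · change M y b + 1 = 0
          rw [h.sym, ← hsy, h1]
          decide
      · intro v hv
        rw [lap_add, lap_one, add_zero]
        exact hlY v hv
  obtain ⟨f, hf, hfY⟩ := hex
  obtain ⟨α, h1, h2, h3⟩ := h.own hS hc hSY hy hf hfY
  have h2u := h2 0
  have h2v := h2 1
  simp only [Fin.sum_univ_two, Matrix.cons_val_zero, Matrix.cons_val_one] at h1 h2u h2v h3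
  rw [hba, hmab] at h2u
  rw [← hab, hmab] at h2v
  refine ⟨?_, ?_, ?_⟩
  · rw [h2u]
    revert h1
    generalize α 0 = A
    generalize α 1 = B
    generalize M a a = C
    revert A B C
    decide
  · rw [h2v]
    revert h1
    generalize α 0 = A
    generalize α 1 = B
    generalize M a a = C
    revert A B C
    decide
  · intro v hv hvY
    rw [h3 v (by rw [sm_pair, hv]; exact CharTwo.add_self_eq_zero _) hvY, ← hv, ← add_mul, h1,
      one_mul]

end

end Pool.Agent.H36.Q
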