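import Pool.Agent.H36.Q.Side3

set_option autoImplicit false

/-!
Row (B) of the full Q1 of MP_a46c6f_co, fourth part: induced paths.
-/

namespace Pool.Agent.H36.Q

open Pool.Agent.H98.Code Pool.Agent.H17.TR Pool.Agent.H77.Q Pool.Agent.H6.P4
open Pool.Agent.H17.P3 (IsP4 Bad Pairs P4Split)

section
variable {V : Type} [Fintype V] [DecidableEq V]
variable {B : Submodule (ZMod 2) (V → K)} {H : V → V → ZMod 2} {e : V}
variable {M : V → V → ZMod 2}

/-- an induced path with the colours `0110` -/
structure Q4 (M : V → V → ZMod 2) (a b c d : V) : Prop where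
  p4 : IsP4 M a b c d
  ha : M a a = 0
  hb : M b b = 1
  hc : M c c = 1
  hd : M d d = 0

theorem Dat.q4Cl (h : Dat B H e M) {a b c d : V} (hP : Q4 M a b c d) : Cl M e ![a, b, c, d] := by
  obtain ⟨⟨hab, hbc, hcd, hac, had, hbd⟩, ha, hb, hcc, hd⟩ := hP
  have he := h.he
  have hba : M b a = 1 := by rw [h.sym, hab]
  have hcb : M c b = 1 := by rw [h.sym, hbc]
  have hdc : M d c = 1 := by rw [h.sym, hcd]
  have hca : M c a = 0 := by rw [h.sym, hac]
  have hda : M d a = 0 := by rw [h.sym, had]
  have hdb : M d b = 0 := by rw [h.sym, hbd]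
  have h01 : (0 : ZMod 2) ≠ 1 := by decide
  have nab : a ≠ b := by rintro rfl; exact h01 (ha.symm.trans hb)
  have nac : a ≠ c := by rintro rfl; exact h01 (ha.symm.trans hcc)
  have nad : a ≠ d := by rintro rfl; exact h01 (hdb.symm.trans hab)
  have nbc : b ≠ c := by rintro rfl; exact h01 (hbd.symm.trans hcd)
  have nbd : b ≠ d := by rintro rfl; exact h01 (hd.symm.trans hb)
  have ncd : c ≠ d := by rintro rfl; exact h01 (hd.symm.trans hcc)
  refine ⟨by decide, by norm_num, ?_, ?_, ?_⟩
  · intro i j hij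
    fin_cases i <;> fin_cases j <;> first
      | rfl
      | exact absurd hij nab
      | exact absurd hij nac
      | exact absurd hij nad
      | exact absurd hij nbc
      | exact absurd hij nbd
      | exact absurd hij ncd
      | exact absurd hij.symm nab
      | exact absurd hij.symm nac
      | exact absurd hij.symm nad
      | exact absurd hij.symm nbc
      | exact absurd hij.symm nbd
      | exact absurd hij.symm ncd
  · intro i
    fin_cases i
    · change a ≠ e
      rintro rfl
      exact h01 ((he b).symm.trans hab)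
    · change b ≠ e
      rintro rfl
      exact h01 ((he c).symm.trans hbc)
    · change c ≠ e
      rintro rfl
      exact h01 ((he d).symm.trans hcd)
    · change d ≠ e
      rintro rfl
      exact h01 ((he c).symm.trans hdc)
  · intro j
    rw [Fin.sum_univ_four]
    fin_cases j
    · change M a a + M b a + M c a + M d a = 1
      rw [ha, hba, hca, hda]
      decide
    · change M a b + M b b + M c b + M d b = 1
      rw [hab, hb, hcb, hdb]
      decide
    · change M a c + M b c + M c c + M d c = 1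
      rw [hac, hbc, hcc, hdc]
      decide
    · change M a d + M b d + M c d + M d d = 1
      rw [had, hbd, hcd, hd]
      decide

theorem sm_four (a b c d y : V) : sm M ![a, b, c, d] y = M a y + M b y + M c y + M d y := by
  unfold sm
  rw [Fin.sum_univ_four]
  rfl

/-- the linear system of the path -/
theorem Dat.sys (h : Dat B H e M) {a b c d : V} (hP : Q4 M a b c d) (α : Fin 4 → ZMod 2) :
    (∑ i, α i * M (![a, b, c, d] i) a) = α 1 ∧
    (∑ i, α i * M (![a, b, c, d] i) b) = α 0 + α 1 + α 2 ∧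
    (∑ i, α i * M (![a, b, c, d] i) c) = α 1 + α 2 + α 3 ∧
    (∑ i, α i * M (![a, b, c, d] i) d) = α 2 := by
  obtain ⟨⟨hab, hbc, hcd, hac, had, hbd⟩, ha, hb, hcc, hd⟩ := hP
  have hba : M b a = 1 := by rw [h.sym, hab]
  have hcb : M c b = 1 := by rw [h.sym, hbc]
  have hdc : M d c = 1 := by rw [h.sym, hcd]
  have hca : M c a = 0 := by rw [h.sym, hac]
  have hda : M d a = 0 := by rw [h.sym, had]
  have hdb : M d b = 0 := by rw [h.sym, hbd]
  refine ⟨?_, ?_, ?_, ?_⟩
  · rw [Fin.sum_univ_four]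
    change α 0 * M a a + α 1 * M b a + α 2 * M c a + α 3 * M d a = _
    rw [ha, hba, hca, hda]
    ring
  · rw [Fin.sum_univ_four]
    change α 0 * M a b + α 1 * M b b + α 2 * M c b + α 3 * M d b = _
    rw [hab, hb, hcb, hdb]
    ring
  · rw [Fin.sum_univ_four]
    change α 0 * M a c + α 1 * M b c + α 2 * M c c + α 3 * M d c = _
    rw [hac, hbc, hcc, hdc]
    ring
  · rw [Fin.sum_univ_four]
    change α 0 * M a d + α 1 * M b d + α 2 * M c d + α 3 * M d d = _
    rw [had, hbd, hcd, hd]
    ring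

theorem Dat.irr_q4 (h : Dat B H e M) {a b c d : V} (hP : Q4 M a b c d) :
    Irr B (wT H M ![a, b, c, d]) := by
  apply h.irr (h.q4Cl hP)
  intro α h1 h2
  obtain ⟨s0, s1, s2, s3⟩ := h.sys hP α
  have e0 : α 0 = α 1 := (h2 0).trans s0
  have e1 : α 1 = α 0 + α 1 + α 2 := (h2 1).trans s1
  have e2 : α 2 = α 1 + α 2 + α 3 := (h2 2).trans s2
  have e3 : α 3 = α 2 := (h2 3).trans s3
  have key : ∀ w x y t : ZMod 2, w = x → x = w + x + y → y = x + y + t → t = y →
      (w = 0 ∧ x = 0 ∧ y = 0 ∧ t = 0) ∨ (w = 1 ∧ x = 1 ∧ y = 1 ∧ t = 1) := by decide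
  rcases key _ _ _ _ e0 e1 e2 e3 with ⟨k0, k1, k2, k3⟩ | ⟨k0, k1, k2, k3⟩
  · left
    intro i
    fin_cases i
    · exact k0
    · exact k1
    · exact k2
    · exact k3
  · right
    intro i
    fin_cases i
    · exact k0
    · exact k1
    · exact k2
    · exact k3

/-- bad points from a combination -/
theorem Dat.bad_of (h : Dat B H e M) {a b c d : V} (hP : Q4 M a b c d) {g : V}
    {α : Fin 4 → ZMod 2} (h1 : ∑ i, α i = 1)
    (h2 : ∀ j, M g (![a, b, c, d] j) = α j + ∑ i, α i * M (![a, b, c, d] i) (![a, b, c, d] j)) :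
    Bad M a b c d g := by
  obtain ⟨s0, s1, s2, s3⟩ := h.sys hP α
  have e0 : M g a = α 0 + _ := h2 0
  have e1 : M g b = α 1 + _ := h2 1
  have e2 : M g c = α 2 + _ := h2 2
  have e3 : M g d = α 3 + _ := h2 3
  have e0' : M g a = α 0 + α 1 := by rw [e0]; exact congrArg _ s0
  have e1' : M g b = α 1 + (α 0 + α 1 + α 2) := by rw [e1]; exact congrArg _ s1
  have e2' : M g c = α 2 + (α 1 + α 2 + α 3) := by rw [e2]; exact congrArg _ s2
  have e3' : M g d = α 3 + α 2 := by rw [e3]; exact congrArg _ s3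
  rw [Fin.sum_univ_four] at h1
  refine ⟨?_, ?_⟩
  · rw [e0', e3']
    revert h1
    generalize α 0 = A
    generalize α 1 = B
    generalize α 2 = C
    generalize α 3 = D
    revert A B C D
    decide
  · rw [e1', e2']
    revert h1
    generalize α 0 = A
    generalize α 1 = B
    generalize α 2 = C
    generalize α 3 = D
    revert A B C D
    decide

theorem const_comb {a b c d y : V} {α : Fin 4 → ZMod 2} (h1 : ∑ i, α i = 1)
    (hy1 : M a y = M b y) (hy2 : M a y = M c y) (hy3 : M a y = M d y) :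
    ∑ i, α i * M (![a, b, c, d] i) y = M a y := by
  rw [Fin.sum_univ_four] at h1 ⊢
  change α 0 * M a y + α 1 * M b y + α 2 * M c y + α 3 * M d y = _
  rw [← hy1, ← hy2, ← hy3, ← add_mul, ← add_mul, ← add_mul, h1, one_mul]

theorem sm_const {a b c d y : V} (hy1 : M a y = M b y) (hy2 : M a y = M c y)
    (hy3 : M a y = M d y) : sm M ![a, b, c, d] y = 0 := by
  rw [sm_four, ← hy1, ← hy2, ← hy3]
  generalize M a y = A
  revert A
  decide

/-- the bad point of a splitting path word -/
theorem Dat.bad_split (h : Dat B H e M) {a b c d : V} (hP : Q4 M a b c d) {g : V}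
    (hg : Splits B (wT H M ![a, b, c, d]) g) :
    Bad M a b c d g ∧ ∀ y, M a y = M b y → M a y = M c y → M a y = M d y → M g y = M a y := by
  obtain ⟨α, h1, h2, _, h4⟩ := h.of_split (h.q4Cl hP) hg
  refine ⟨h.bad_of hP h1 h2, ?_⟩
  intro y hy1 hy2 hy3
  have h5 := h4 y (sm_const hy1 hy2 hy3)
  rw [h5]
  exact const_comb h1 hy1 hy2 hy3

/-- the combination of own places -/
theorem Dat.own_q4 (h : Dat B H e M) {S : (V → K) → Finset V → Prop} (hS : RSides B e S)
    {a b c d : V} (hP : Q4 M a b c d) {Y : Finset V}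
    (hSY : S (wT H M ![a, b, c, d]) Y) {y : V} (hy : y ∈ Y) :
    ∃ α : Fin 4 → ZMod 2, ∑ i, α i = 1 ∧
      (∀ j, M y (![a, b, c, d] j) =
        α j + ∑ i, α i * M (![a, b, c, d] i) (![a, b, c, d] j)) ∧
      ∀ v, sm M ![a, b, c, d] v = 0 → v ∉ Y → M y v = ∑ i, α i * M (![a, b, c, d] i) v := by
  have hc := h.q4Cl hP
  have hsy : M a y + M b y + M c y + M d y = 0 := by
    have h1 := (h.wT_zero hc).1 (hS.zero _ Y hSY y hy)
    rw [sm_four] at h1
    exact h1
  have hYe : ∀ v ∈ Y, v ≠ e := fun v hv hve => hS.root _ Y hSY (hve ▸ hv)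
  have hYp : ∀ v ∈ Y, ∀ j, v ≠ ![a, b, c, d] j := by
    intro v hv j hj
    have h1 := (h.wT_zero hc).1 (hS.zero _ Y hSY v hv)
    rw [hj, hc.smp] at h1
    exact one_ne_zero h1
  have hsup : ∀ v, sm M ![a, b, c, d] v = 1 → v ≠ y ∧ v ≠ e := by
    intro v hv
    constructor
    · rintro rfl
      have h1 := (h.wT_zero hc).1 (hS.zero _ Y hSY v hy)
      rw [hv] at h1
      exact one_ne_zero h1
    · rintro rfl
      rw [h.sm_e] at hv
      exact zero_ne_one hv
  set α : Fin 4 → ZMod 2 := ![0, M a y, M b y, M d y + M b y] with hαd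
  obtain ⟨s0, s1, s2, s3⟩ := h.sys hP α
  have a0 : α 0 = 0 := rfl
  have a1 : α 1 = M a y := rfl
  have a2 : α 2 = M b y := rfl
  have a3 : α 3 = M d y + M b y := rfl
  have hlc : ∀ v, v ≠ e → Lap H (M y + comb M ![a, b, c, d] α) v =
      (if v = y then 1 else 0) + ∑ i, α i * (if v = ![a, b, c, d] i then 1 else 0) := by
    intro v hv
    rw [lap_add, h.hl, h.lap_comb, if_neg hv, add_zero, mul_zero, add_zero]
  have hlp : ∀ j, (∑ i, α i * (if ![a, b, c, d] j = ![a, b, c, d] i then (1 : ZMod 2) else 0)) =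
      α j := by
    intro j
    rw [Finset.sum_eq_single j]
    · rw [if_pos rfl, mul_one]
    · intro i _ hi
      rw [if_neg, mul_zero]
      intro h'
      exact hi (hc.inj h').symm
    · intro h'
      exact absurd (Finset.mem_univ j) h'
  have hlo : ∀ v, (∀ j, v ≠ ![a, b, c, d] j) →
      (∑ i, α i * (if v = ![a, b, c, d] i then (1 : ZMod 2) else 0)) = 0 := by
    intro v hv
    exact Finset.sum_eq_zero fun i _ => by rw [if_neg (hv i), mul_zero]
  apply h.own hS hc hSY hy (f := M y + comb M ![a, b, c, d] α)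
  · intro v hv
    have hvs := hsup v hv
    constructor
    · intro j hj
      rw [hlc v hvs.2, if_neg hvs.1, zero_add, hj, hlp]
      have hval : (M y + comb M ![a, b, c, d] α) (![a, b, c, d] j) =
          M y (![a, b, c, d] j) + ∑ i, α i * M (![a, b, c, d] i) (![a, b, c, d] j) := rfl
      rw [hval]
      have key : ∀ p q r s : ZMod 2, p + q + r + s = 0 →
          p + p = 0 ∧ q + (0 + p + q) = p ∧ r + (p + q + (s + q)) = q ∧ s + q = s + q := by
        decide
      obtain ⟨k0, k1, k2, k3⟩ := key _ _ _ _ hsy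
      have q0 : M y a + ∑ i, α i * M (![a, b, c, d] i) a = α 0 := by
        rw [s0, a0, a1, h.sym y a]; exact k0
      have q1 : M y b + ∑ i, α i * M (![a, b, c, d] i) b = α 1 := by
        rw [s1, a0, a1, a2, h.sym y b]; exact k1
      have q2 : M y c + ∑ i, α i * M (![a, b, c, d] i) c = α 2 := by
        rw [s2, a1, a2, a3, h.sym y c]; exact k2
      have q3 : M y d + ∑ i, α i * M (![a, b, c, d] i) d = α 3 := by
        rw [s3, a2, a3, h.sym y d]
      fin_cases j
      · exact q0
      · exact q1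
      · exact q2
      · exact q3
    · intro hj
      rw [hlc v hvs.2, if_neg hvs.1, zero_add, hlo v hj]
  · intro v hv
    rw [hlc v (hYe v hv), hlo v (hYp v hv), add_zero]

/-- own places of an unsplit path are bad points -/
theorem Dat.bad_own (h : Dat B H e M) {S : (V → K) → Finset V → Prop} (hS : RSides B e S)
    {a b c d : V} (hP : Q4 M a b c d) {Y : Finset V}
    (hSY : S (wT H M ![a, b, c, d]) Y) {y : V} (hy : y ∈ Y) :
    Bad M a b c d y ∧ ∀ v, M a v = M b v → M a v = M c v → M a v = M d v → M y v = M a v := by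
  obtain ⟨α, h1, h2, h3⟩ := h.own_q4 hS hP hSY hy
  refine ⟨h.bad_of hP h1 h2, ?_⟩
  intro v hv1 hv2 hv3
  have hvY : v ∉ Y := by
    intro hv
    obtain ⟨α', h1', h2', _⟩ := h.own_q4 hS hP hSY hv
    have hb := (h.bad_of hP h1' h2').1
    apply hb
    rw [h.sym v a, h.sym v d, hv3]
  rw [h3 v (sm_const hv1 hv2 hv3) hvY]
  exact const_comb h1 hv1 hv2 hv3

end

end Pool.Agent.H36.Q
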