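import Pool.Agent.H36.Q.Side4
import Pool.Agent.H26.P3.End

set_option autoImplicit false

/-!
Row (B) of the full Q1 of MP_a46c6f_co, last part: a rooted code with sides is the code of a tree.
-/

namespace Pool.Agent.H36.Q

open Pool.Agent.H98.Code Pool.Agent.H17.TR Pool.Agent.H77.Q Pool.Agent.H6.P4
open Pool.Agent.H17.P3 (IsP4 Bad Pairs P4Split)

section
variable {V : Type} [Fintype V] [DecidableEq V]
variable {B : Submodule (ZMod 2) (V → K)} {H : V → V → ZMod 2} {e : V}
variable {M : V → V → ZMod 2}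

/-- the words of closed families inside the own set of an unsplit closed pair -/
theorem Dat.sub (h : Dat B H e M) {S : (V → K) → Finset V → Prop} (hS : RSides B e S)
    {a b : V} (hab : M a a = M b b) (hne : M a b ≠ M a a) {Y : Finset V}
    (hSY : S (wT H M ![a, b]) Y) {n : ℕ} {p : Fin n → V} (hc : Cl M e p) (hpY : ∀ i, p i ∈ Y) :
    (∀ v, wT H M ![a, b] v ≠ 0 → wT H M p v = 0 ∨ wT H M p v = wT H M ![a, b] v) ∧
      ∀ v, wT H M ![a, b] v = 0 → v ∉ Y → wT H M p v = 0 := by
  have hcab := h.pairCl hab hne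
  have hcard : ∀ x : ZMod 2, ∑ _i : Fin n, x = 0 := by
    intro x
    rw [Finset.sum_const, Finset.card_univ, Fintype.card_fin, nsmul_eq_mul, hc.even, zero_mul]
  have hYz : ∀ v ∈ Y, sm M ![a, b] v = 0 := fun v hv =>
    (h.wT_zero hcab).1 (hS.zero _ Y hSY v hv)
  constructor
  · apply (h.le_iff hcab).2
    intro v hv
    have hvY : v ∉ Y := by
      intro h1
      rw [hYz v h1] at hv
      exact zero_ne_one hv
    have hl : Lap H (sm M p) v = 0 := h.lap_smo hc (fun j hj => hvY (hj ▸ hpY j))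
    refine ⟨?_, fun _ => hl⟩
    intro j hj
    rw [hl, hj]
    fin_cases j
    · change ∑ i, M (p i) a = 0
      rw [Finset.sum_congr rfl fun i _ => (h.pair_own hS hab hne hSY (hpY i)).1]
      exact hcard _
    · change ∑ i, M (p i) b = 0
      rw [Finset.sum_congr rfl fun i _ => (h.pair_own hS hab hne hSY (hpY i)).2.1]
      exact hcard _
  · intro v hv hvY
    rw [h.wT_zero hc]
    have h1 := (h.wT_zero hcab).1 hv
    rw [sm_pair] at h1
    have h2 : M a v = M b v := CharTwo.add_eq_zero.1 h1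
    change ∑ i, M (p i) v = 0
    rw [Finset.sum_congr rfl fun i _ => (h.pair_own hS hab hne hSY (hpY i)).2.2 v h2 hvY]
    exact hcard _

/-- a splitting of `u` from one half -/
theorem split_direct {u c : V → K} (hu : u ∈ B) (hc : c ∈ B)
    (hle : ∀ v, u v ≠ 0 → c v = 0 ∨ c v = u v) {g : V} (hug : u g = 0) (hcg : c g = z)
    (hout : ∀ v, u v = 0 → v ≠ g → c v = 0) : Splits B u g := by
  refine ⟨c, hc, c + u, B.add_mem hc hu, ?_, hcg, ?_, ?_⟩
  · funext v
    rw [Pi.add_apply, Pi.add_apply, ← add_assoc, kk, zero_add]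
  · rw [Pi.add_apply, hcg, hug, add_zero]
  · intro v hv
    by_cases h1 : u v = 0
    · exact Or.inl (hout v h1 hv)
    · rcases hle v h1 with h2 | h2
      · exact Or.inl h2
      · right
        rw [Pi.add_apply, h2, kk]

/-- every closed pair splits -/
theorem Dat.pairs_split (h : Dat B H e M) (hB : IsCode B) {S : (V → K) → Finset V → Prop}
    (hS : RSides B e S) (a₀ b₀ : V) (hab₀ : M a₀ a₀ = M b₀ b₀) (hne₀ : M a₀ b₀ ≠ M a₀ a₀) :
    ∃ g, Splits B (wT H M ![a₀, b₀]) g := by
  classical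
  by_contra hcon
  have hex : ∀ u v : V, M u u = M v v → M u v ≠ M u u → (¬ ∃ g, Splits B (wT H M ![u, v]) g) →
      ∃ Y, Y.Nonempty ∧ S (wT H M ![u, v]) Y := by
    intro u v h1 h2 h3
    have hc := h.pairCl h1 h2
    exact (hS.ex _ (h.wT_mem _) (h.wT_zfree hc) (h.wT_e hc) (h.wT_ne hc)
      (h.irr_pair h1 h2)).resolve_left h3
  obtain ⟨Y0, hY0, hSY0⟩ := hex a₀ b₀ hab₀ hne₀ hcon
  obtain ⟨⟨⟨a, b⟩, Y⟩, hmem, hmin⟩ := Finset.exists_min_image
    (Finset.univ.filter (fun x : (V × V) × Finset V => M x.1.1 x.1.1 = M x.1.2 x.1.2 ∧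
      M x.1.1 x.1.2 ≠ M x.1.1 x.1.1 ∧ (¬ ∃ g, Splits B (wT H M ![x.1.1, x.1.2]) g) ∧
      x.2.Nonempty ∧ S (wT H M ![x.1.1, x.1.2]) x.2)) (fun x => x.2.card)
    ⟨⟨⟨a₀, b₀⟩, Y0⟩, by
      rw [Finset.mem_filter]
      exact ⟨Finset.mem_univ _, hab₀, hne₀, hcon, hY0, hSY0⟩⟩
  rw [Finset.mem_filter] at hmem
  obtain ⟨-, hab, hne, hns, hY, hSY⟩ := hmem
  simp only at hab hne hns hY hSY
  have hns' : ∀ g, ¬ Splits B (wT H M ![a, b]) g := fun g hg => hns ⟨g, hg⟩
  have hcab := h.pairCl hab hne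
  have hYz : ∀ v ∈ Y, sm M ![a, b] v = 0 := fun v hv =>
    (h.wT_zero hcab).1 (hS.zero _ Y hSY v hv)
  have hirr := h.irr_pair hab hne
  -- closed pairs inside `Y` split
  have hpair : ∀ u ∈ Y, ∀ v ∈ Y, M u u = M v v → M u v ≠ M u u →
      ∃ g ∈ Y, Splits B (wT H M ![u, v]) g := by
    intro u hu v hv h1 h2
    have hc := h.pairCl h1 h2
    have hin : ∀ i, ![u, v] i ∈ Y := by
      intro i
      fin_cases i
      · exact hu
      · exact hv
    obtain ⟨k1, k2⟩ := h.sub hS hab hne hSY hc hin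
    have hsp : ∃ g, Splits B (wT H M ![u, v]) g := by
      by_contra hno
      rcases hS.mono _ Y hSY hirr _ (h.wT_mem ![u, v]) (h.wT_zfree hc) (h.wT_ne hc)
        (h.irr_pair h1 h2) k1 k2 with hg | ⟨Y', hY', hne', hSY'⟩
      · exact hno hg
      · have h3 := hmin ⟨⟨u, v⟩, Y'⟩ (by
          rw [Finset.mem_filter]
          exact ⟨Finset.mem_univ _, h1, h2, hno, hne', hSY'⟩)
        have h4 := Finset.eq_of_subset_of_card_le hY' h3
        have h5 := hS.zero _ Y' hSY' u (h4 ▸ hu)
        rw [h.wT_zero hc] at h5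
        have h6 := hc.smp 0
        change sm M ![u, v] u = 1 at h6
        rw [h5] at h6
        exact zero_ne_one h6
    obtain ⟨g, hg⟩ := hsp
    exact ⟨g, (loc hB hS hSY (h.wT_mem _) (h.wT_zfree hcab) hns' k1 k2 hg).1, hg⟩
  -- paths inside `Y` have bad points inside `Y`
  have hq4 : ∀ p ∈ Y, ∀ q ∈ Y, ∀ r ∈ Y, ∀ s ∈ Y, Q4 M p q r s →
      ∃ g ∈ Y, Bad M p q r s g ∧
        ∀ y, M p y = M q y → M p y = M r y → M p y = M s y → M g y = M p y := by
    intro p hp q hq r hr s hs hQ
    have hc := h.q4Cl hQ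
    have hin : ∀ i, ![p, q, r, s] i ∈ Y := by
      intro i
      fin_cases i
      · exact hp
      · exact hq
      · exact hr
      · exact hs
    obtain ⟨k1, k2⟩ := h.sub hS hab hne hSY hc hin
    rcases hS.mono _ Y hSY hirr _ (h.wT_mem ![p, q, r, s]) (h.wT_zfree hc) (h.wT_ne hc)
      (h.irr_q4 hQ) k1 k2 with ⟨g, hg⟩ | ⟨Y', hY', ⟨y, hy⟩, hSY'⟩
    · exact ⟨g, (loc hB hS hSY (h.wT_mem _) (h.wT_zfree hcab) hns' k1 k2 hg).1,
        h.bad_split hQ hg⟩
    · exact ⟨y, hY' hy, h.bad_own hS hQ hSY' hy⟩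
  -- the restricted matrix
  have : Nonempty {v // v ∈ Y} := let ⟨y, hy⟩ := hY; ⟨⟨y, hy⟩⟩
  have hsym : ∀ x y : {v // v ∈ Y}, M x.1 y.1 = M y.1 x.1 := fun x y => h.sym _ _
  have hPairs : Pairs (fun x y : {v // v ∈ Y} => M x.1 y.1) := by
    intro u v h1 h2
    obtain ⟨g, hgY, hg⟩ := hpair u.1 u.2 v.1 v.2 h1 h2
    obtain ⟨g1, g2, g3, g4⟩ := h.pair_of h1 h2 hg
    exact ⟨⟨g, hgY⟩, g1, g2, g3, fun x hx => g4 x.1 hx⟩
  have hP4 : P4Split (fun x y : {v // v ∈ Y} => M x.1 y.1) := by
    intro p q r s hP h1 h2 h3 h4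
    obtain ⟨g, hgY, g1, g2⟩ := hq4 p.1 p.2 q.1 q.2 r.1 r.2 s.1 s.2
      ⟨⟨hP.ab, hP.bc, hP.cd, hP.ac, hP.ad, hP.bd⟩, h1, h2, h3, h4⟩
    exact ⟨⟨g, hgY⟩, g1, fun y e1 e2 e3 => g2 y.1 e1 e2 e3⟩
  have hno := Pool.Agent.H81.P4.P3_holds {v // v ∈ Y} _ hsym hPairs hP4
  have hrow : ∃ r ∈ Y, ∀ y ∈ Y, M r y = M r r := by
    rcases Pool.Agent.H81.P4.iso_or_full hsym hPairs hno with ⟨x, hx⟩ | ⟨x, hx⟩
    · refine ⟨x.1, x.2, fun y hy => ?_⟩
      have e1 : M x.1 y = 0 := hx ⟨y, hy⟩
      have e2 : M x.1 x.1 = 0 := hx x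
      rw [e1, e2]
    · refine ⟨x.1, x.2, fun y hy => ?_⟩
      have e1 : M x.1 y = 1 := hx ⟨y, hy⟩
      have e2 : M x.1 x.1 = 1 := hx x
      rw [e1, e2]
  obtain ⟨r, hr, hrow⟩ := hrow
  obtain ⟨o1, o2, o3⟩ := h.pair_own hS hab hne hSY hr
  have hmab : M a b = M a a + 1 := ne_add _ _ hne
  have hra : r ≠ a := by
    rintro rfl
    have h1 := hYz r hr
    have h2 := hcab.smp 0
    change sm M ![r, b] r = 1 at h2
    rw [h1] at h2
    exact zero_ne_one h2
  have hrb : r ≠ b := by
    rintro rfl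
    have h1 := hYz r hr
    have h2 := hcab.smp 1
    change sm M ![a, r] r = 1 at h2
    rw [h1] at h2
    exact zero_ne_one h2
  have hre : r ≠ e := fun h1 => hS.root _ Y hSY (h1 ▸ hr)
  have hae : a ≠ e := hcab.ne 0
  have haY : a ∉ Y := by
    intro h1
    have h2 := hYz a h1
    have h3 := hcab.smp 0
    change sm M ![a, b] a = 1 at h3
    rw [h2] at h3
    exact zero_ne_one h3
  by_cases hl : M r r = M a a
  · -- `{r, a}` is a closed pair with letters on all of `Y`
    have hne2 : M r a ≠ M r r := by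
      rw [o1, hl]
      generalize M a a = A
      revert A
      decide
    have hc := h.pairCl hl hne2
    have k1 : ∀ v, wT H M ![a, b] v ≠ 0 →
        wT H M ![r, a] v = 0 ∨ wT H M ![r, a] v = wT H M ![a, b] v := by
      apply (h.le_iff hcab).2
      intro v hv
      have hvr : v ≠ r := by
        rintro rfl
        rw [hYz v hr] at hv
        exact zero_ne_one hv
      constructor
      · intro j hj
        rw [hj]
        fin_cases j
        · change sm M ![r, a] a = Lap H (sm M ![r, a]) a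
          have h1 := h.lap_smp hc 1
          have h2 := hc.smp 1
          change Lap H (sm M ![r, a]) a = 1 at h1
          change sm M ![r, a] a = 1 at h2
          rw [h1, h2]
        · change sm M ![r, a] b = Lap H (sm M ![r, a]) b
          have h1 : Lap H (sm M ![r, a]) b = 0 := by
            apply h.lap_smo hc
            intro j hj
            fin_cases j
            · exact hrb hj.symm
            · change b = a at hj
              rw [hj] at hmab
              revert hmab
              generalize M a a = A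
              revert A
              decide
          rw [h1, sm_pair, o2, hmab]
          generalize M a a = A
          revert A
          decide
      · intro hj
        apply h.lap_smo hc
        intro j hj'
        fin_cases j
        · exact hvr hj'
        · exact hj 0 hj'
    have k2 : ∀ v, wT H M ![a, b] v = 0 → v ∉ Y → wT H M ![r, a] v = 0 := by
      intro v hv hvY
      rw [h.wT_zero hc, sm_pair]
      have h1 := (h.wT_zero hcab).1 hv
      rw [sm_pair] at h1
      rw [o3 v (CharTwo.add_eq_zero.1 h1) hvY]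
      exact CharTwo.add_self_eq_zero _
    have k3 : ∀ y ∈ Y, wT H M ![r, a] y ≠ 0 := by
      intro y hy h1
      rw [h.wT_zero hc, sm_pair, hrow y hy, hl, h.sym a y, (h.pair_own hS hab hne hSY hy).1] at h1
      revert h1
      generalize M a a = A
      revert A
      decide
    rcases hS.mono _ Y hSY hirr _ (h.wT_mem ![r, a]) (h.wT_zfree hc) (h.wT_ne hc)
      (h.irr_pair hl hne2) k1 k2 with ⟨g, hg⟩ | ⟨Y', hY', ⟨y, hy⟩, hSY'⟩
    · obtain ⟨g1, g2⟩ := loc hB hS hSY (h.wT_mem _) (h.wT_zfree hcab) hns' k1 k2 hg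
      exact k3 g g1 g2
    · exact k3 y (hY' hy) (hS.zero _ Y' hSY' y hy)
  · -- `z` at `r`
    have hl' : M r r = M a a + 1 := ne_add _ _ hl
    have hlap : ∀ v, v ≠ e → Lap H (M r + M a) v =
        (if v = r then 1 else 0) + (if v = a then 1 else 0) := by
      intro v hv
      rw [lap_add, h.hl, h.hl, if_neg hv, add_zero, add_zero]
    have hval : ∀ v, (M r + M a) v = M r v + M a v := fun v => rfl
    apply hns' r
    apply split_direct (h.wT_mem _) (wd_mem h.mat (M r + M a))
    · apply (h.le_iff hcab).2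
      intro v hv
      have hvr : v ≠ r := by
        rintro rfl
        rw [hYz v hr] at hv
        exact zero_ne_one hv
      have hve : v ≠ e := by
        rintro rfl
        rw [h.sm_e] at hv
        exact zero_ne_one hv
      constructor
      · intro j hj
        rw [hlap v hve, if_neg hvr, zero_add, hval, hj]
        fin_cases j
        · change M r a + M a a = if a = a then 1 else 0
          rw [if_pos rfl, o1]
          generalize M a a = A
          revert A
          decide
        · change M r b + M a b = if b = a then 1 else 0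
          rw [if_neg, o2, hmab]
          · exact CharTwo.add_self_eq_zero _
          · intro h1
            rw [h1] at hmab
            revert hmab
            generalize M a a = A
            revert A
            decide
      · intro hj
        have hva : v ≠ a := fun h1 => hj 0 h1
        rw [hlap v hve, if_neg hvr, zero_add, if_neg hva]
    · exact hS.zero _ Y hSY r hr
    · apply wd_z
      · rw [hval, hl', h.sym a r, o1]
        exact CharTwo.add_self_eq_zero _
      · rw [hlap r hre, if_pos rfl, if_neg hra, add_zero]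
    · intro v hv hvr
      have hsv := (h.wT_zero hcab).1 hv
      have hva : v ≠ a := by
        rintro rfl
        have h3 := hcab.smp 0
        change sm M ![v, b] v = 1 at h3
        rw [hsv] at h3
        exact zero_ne_one h3
      apply zero_of_lap
      · rw [hval]
        by_cases hvY : v ∈ Y
        · rw [hrow v hvY, hl', h.sym a v, (h.pair_own hS hab hne hSY hvY).1]
          exact CharTwo.add_self_eq_zero _
        · rw [sm_pair] at hsv
          rw [o3 v (CharTwo.add_eq_zero.1 hsv) hvY]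
          exact CharTwo.add_self_eq_zero _
      · rw [lap_add, h.hl, h.hl, if_neg hvr, if_neg hva, zero_add]
        exact CharTwo.add_self_eq_zero _

/-- **row (B)**: the matrix of a rooted code with sides -/
theorem rows {S : (V → K) → Finset V → Prop} (hB : IsCode B) (hH : IsMat B H)
    (hS : RSides B e S) :
    ∃ M : V → V → ZMod 2, (∀ x y, M x y = M y x) ∧ (∀ x, M e x = 0) ∧
      (∀ u, u ≠ e → ∀ v, (∑ w, H u w * (M u v + M w v)) = if u = v then 1 else 0) ∧
      Pairs M ∧ P4Split M := by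
  obtain ⟨M, h0, hl⟩ := exists_inv' (e := e) hH.sym (ker' hH hS)
  have h : Dat B H e M := ⟨hH, h0, hl⟩
  refine ⟨M, h.sym, h.he, ?_, ?_, ?_⟩
  · intro u hu v
    have h1 := hl v u
    rw [if_neg hu, add_zero] at h1
    rw [← h1]
    unfold Lap
    refine Finset.sum_congr rfl fun w _ => ?_
    rw [h.sym u v, h.sym w v]
  · intro u v h1 h2
    obtain ⟨g, hg⟩ := h.pairs_split hB hS u v h1 h2
    exact ⟨g, h.pair_of h1 h2 hg⟩
  · intro a b c d hP h1 h2 h3 h4
    have hQ : Q4 M a b c d := ⟨hP, h1, h2, h3, h4⟩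
    have hc := h.q4Cl hQ
    rcases hS.ex _ (h.wT_mem _) (h.wT_zfree hc) (h.wT_e hc) (h.wT_ne hc) (h.irr_q4 hQ) with
      ⟨g, hg⟩ | ⟨Y, ⟨y, hy⟩, hSY⟩
    · exact ⟨g, h.bad_split hQ hg⟩
    · exact ⟨y, h.bad_own hS hQ hSY hy⟩

end

/-- **row (B)**: a rooted code with sides and without `{0, z}`-words is the code of a tree -/
theorem tree_of_sides (X : Type) [Fintype X] [DecidableEq X] (B : Submodule (ZMod 2) (X → K))
    (r : X) (S : (X → K) → Finset X → Prop) (hB : IsCode B) (hz : NoZ B) (hS : RSides B r S) :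
    (graph B).IsTree := by
  obtain ⟨H, hs, hm⟩ := exists_matrix hB hz
  have hH : IsMat B H := ⟨hs, hm⟩
  have hH' : Pool.Agent.H32.AA.IsMat B H := ⟨hs, hm⟩
  have heq : graph B = GrH H := by
    ext v w
    rw [Pool.Agent.H32.AA.adj_iff hH', hH.adj]
  obtain ⟨M, m1, m2, m3, m4, m5⟩ := rows hB hH hS
  rw [heq]
  exact Pool.Agent.H26.P3.tree_end X r H M hH.sym m1 m2 m3 m4
    (Pool.Agent.H81.P4.P3_holds X M m1 m4 m5)

end Pool.Agent.H36.Q
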